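import Mathlib

set_option autoImplicit false

/-!
# Straight-line programs: the reachability lemma of Babai and Szemerédi
-/

namespace Pool.Agent.Helper4.LS

open Finset

variable {G : Type} [Group G]

/-- One instruction: the pair `(u, v)` adds `a b⁻¹` to the front of the list, where `a`, `b` are the
entries number `u`, `v` of the list. -/
def stepG (L : List G) (uv : ℕ × ℕ) : List G := (L.getD uv.1 1 * (L.getD uv.2 1)⁻¹) :: L

/-- The list obtained by a program. -/
def runG (L : List G) (ps : List (ℕ × ℕ)) : List G := ps.foldl stepG L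

theorem runG_append (L : List G) (ps qs : List (ℕ × ℕ)) :
    runG L (ps ++ qs) = runG (runG L ps) qs := List.foldl_append

theorem length_runG (L : List G) (ps : List (ℕ × ℕ)) :
    (runG L ps).length = L.length + ps.length := by
  induction ps generalizing L with
  | nil => simp [runG]
  | cons p ps ih =>
    have : runG L (p :: ps) = runG (stepG L p) ps := rfl
    rw [this, ih]
    simp [stepG]
    omega

/-- `L'` is obtained from `L` by at most `k` instructions. -/
def Ext (L : List G) (k : ℕ) (L' : List G) : Prop :=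
  ∃ ps : List (ℕ × ℕ), ps.length ≤ k ∧ (∀ uv ∈ ps, uv.1 < L.length + k ∧ uv.2 < L.length + k) ∧
    runG L ps = L'

theorem Ext.refl (L : List G) (k : ℕ) : Ext L k L := ⟨[], by simp, by simp, rfl⟩

theorem Ext.length_le {L L' : List G} {k : ℕ} (h : Ext L k L') : L'.length ≤ L.length + k := by
  obtain ⟨ps, h1, _, rfl⟩ := h
  rw [length_runG]
  omega

theorem Ext.trans {L L' L'' : List G} {k m : ℕ} (h : Ext L k L') (h' : Ext L' m L'') :
    Ext L (k + m) L'' := by
  have hl := h.length_le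
  obtain ⟨ps, h1, h2, rfl⟩ := h
  obtain ⟨qs, h3, h4, rfl⟩ := h'
  refine ⟨ps ++ qs, by simp; omega, ?_, runG_append _ _ _⟩
  intro uv huv
  rcases List.mem_append.1 huv with h | h
  · have := h2 uv h
    omega
  · have := h4 uv h
    omega

theorem Ext.mono {L L' : List G} {k m : ℕ} (h : Ext L k L') (hkm : k ≤ m) : Ext L m L' := by
  obtain ⟨ps, h1, h2, rfl⟩ := h
  refine ⟨ps, by omega, fun uv huv => ?_, rfl⟩
  have := h2 uv huv
  omega

theorem Ext.step {L : List G} {a b : G} (ha : a ∈ L) (hb : b ∈ L) : Ext L 1 ((a * b⁻¹) :: L) := by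
  obtain ⟨u, hu, rfl⟩ := List.mem_iff_getElem.1 ha
  obtain ⟨v, hv, rfl⟩ := List.mem_iff_getElem.1 hb
  refine ⟨[(u, v)], by simp, ?_, ?_⟩
  · intro uv huv
    rw [List.mem_singleton] at huv
    subst huv
    simp only
    omega
  · simp [runG, stepG, List.getElem?_eq_getElem hu, List.getElem?_eq_getElem hv]

theorem Ext.subset {L L' : List G} {k : ℕ} (h : Ext L k L') : L ⊆ L' := by
  obtain ⟨ps, _, _, rfl⟩ := h
  clear * -
  induction ps generalizing L with
  | nil => exact List.Subset.refl _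
  | cons p ps ih =>
    have : runG L (p :: ps) = runG (stepG L p) ps := rfl
    rw [this]
    exact List.Subset.trans (List.subset_cons_self _ _) (ih (L := stepG L p))

/-- division by the elements of a list -/
theorem ext_div : ∀ (as : List G) (L : List G) (z : G), (∀ a ∈ as, a ∈ L) → z ∈ L →
    ∃ L', Ext L as.length L' ∧ z * (as.map (·⁻¹)).prod ∈ L'
  | [], L, z, _, hz => ⟨L, Ext.refl _ _, by simpa using hz⟩
  | a :: as, L, z, h, hz => by
    have h1 := Ext.step hz (h a (by simp))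
    obtain ⟨L', h2, h3⟩ := ext_div as ((z * a⁻¹) :: L) (z * a⁻¹)
      (fun b hb => List.mem_cons_of_mem _ (h b (List.mem_cons_of_mem _ hb))) (by simp)
    refine ⟨L', (h1.trans h2).mono (by simp; omega), ?_⟩
    simpa [mul_assoc] using h3

/-- multiplication by the elements of a list -/
theorem ext_mul : ∀ (as : List G) (L : List G) (z : G), 1 ∈ L → (∀ a ∈ as, a ∈ L) → z ∈ L →
    ∃ L', Ext L (2 * as.length) L' ∧ z * as.prod ∈ L'
  | [], L, z, _, _, hz => ⟨L, Ext.refl _ _, by simpa using hz⟩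
  | a :: as, L, z, h0, h, hz => by
    have h1 := Ext.step h0 (h a (by simp))
    have h2 := Ext.step (L := (1 * a⁻¹) :: L) (a := z) (b := 1 * a⁻¹)
      (List.mem_cons_of_mem _ hz) (by simp)
    obtain ⟨L', h3, h4⟩ := ext_mul as ((z * (1 * a⁻¹)⁻¹) :: (1 * a⁻¹) :: L) (z * (1 * a⁻¹)⁻¹)
      (by simp [h0]) (fun b hb => by
        have := h b (List.mem_cons_of_mem _ hb)
        simp [this]) (by simp)
    refine ⟨L', ((h1.trans h2).trans h3).mono (by simp; omega), ?_⟩
    simpa [mul_assoc] using h4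

open Classical in
/-- The cube generated by a list. -/
noncomputable def cube : List G → Finset G
  | [] => {1}
  | g :: gs => cube gs ∪ (cube gs).image (· * g)

theorem one_mem_cube : ∀ gs : List G, (1 : G) ∈ cube gs
  | [] => by simp [cube]
  | g :: gs => by
    classical
    rw [cube, Finset.mem_union]
    exact Or.inl (one_mem_cube gs)

theorem mem_cube : ∀ (gs : List G) (c : G), c ∈ cube gs →
    ∃ as : List G, as.length ≤ gs.length ∧ (∀ a ∈ as, a ∈ gs) ∧ as.prod = c
  | [], c, h => ⟨[], by simp, by simp, by simp [cube] at h; simp [h]⟩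
  | g :: gs, c, h => by
    classical
    rw [cube, Finset.mem_union, Finset.mem_image] at h
    rcases h with h | ⟨d, hd, rfl⟩
    · obtain ⟨as, h1, h2, h3⟩ := mem_cube gs c h
      exact ⟨as, by simp; omega, fun a ha => List.mem_cons_of_mem _ (h2 a ha), h3⟩
    · obtain ⟨as, h1, h2, h3⟩ := mem_cube gs d hd
      refine ⟨as ++ [g], by simp; omega, ?_, by simp [h3]⟩
      intro a ha
      rcases List.mem_append.1 ha with h | h
      · exact List.mem_cons_of_mem _ (h2 a h)
      · rw [List.mem_singleton] at h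
        simp [h]

theorem card_cube_cons (g : G) (gs : List G) (h : ∀ x ∈ cube gs, ∀ y ∈ cube gs, g ≠ x⁻¹ * y) :
    (cube (g :: gs)).card = 2 * (cube gs).card := by
  classical
  have h1 : Disjoint (cube gs) ((cube gs).image (· * g)) := by
    rw [Finset.disjoint_left]
    intro y hy hy'
    obtain ⟨x, hx, hxy⟩ := Finset.mem_image.1 hy'
    apply h x hx y hy
    rw [← hxy]
    group
  have h2 : cube (g :: gs) = cube gs ∪ (cube gs).image (· * g) := by
    rw [cube]
  rw [h2, Finset.card_union_of_disjoint h1, Finset.card_image_of_injective _ (mul_left_injective g)]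
  ring

/-- cost of an element `x⁻¹ y` -/
theorem ext_cube {gs L : List G} (h0 : 1 ∈ L) (hL : ∀ g ∈ gs, g ∈ L) {x y : G} (hx : x ∈ cube gs)
    (hy : y ∈ cube gs) : ∃ L', Ext L (3 * gs.length) L' ∧ x⁻¹ * y ∈ L' := by
  obtain ⟨as, h1, h2, h3⟩ := mem_cube gs x hx
  obtain ⟨bs, h4, h5, h6⟩ := mem_cube gs y hy
  obtain ⟨L1, e1, m1⟩ := ext_div as.reverse L 1 (fun a ha => hL a (h2 a (List.mem_reverse.1 ha))) h0
  have h7 : 1 * (as.reverse.map (·⁻¹)).prod = x⁻¹ := by
    rw [one_mul, ← h3, List.prod_inv_reverse, List.map_reverse]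
  rw [h7] at m1
  obtain ⟨L2, e2, m2⟩ := ext_mul bs L1 x⁻¹ (e1.subset h0) (fun b hb => e1.subset (hL b (h5 b hb))) m1
  rw [h6] at m2
  refine ⟨L2, (e1.trans e2).mono ?_, m2⟩
  rw [List.length_reverse]
  omega

/-- A system can be extended unless it generates everything. -/
theorem grow {p : ℕ} (S gs L : List G) (hs : gs.length ≤ p)
    (hE : Ext (1 :: S) (gs.length * (3 * p + 2)) L) (hg : ∀ g ∈ gs, g ∈ L)
    (hc : (cube gs).card = 2 ^ gs.length) :
    (∀ g ∈ Subgroup.closure {a | a ∈ S}, ∃ x ∈ cube gs, ∃ y ∈ cube gs, g = x⁻¹ * y) ∨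
    ∃ (g : G) (L' : List G), Ext (1 :: S) ((g :: gs).length * (3 * p + 2)) L' ∧
      (∀ a ∈ g :: gs, a ∈ L') ∧ (cube (g :: gs)).card = 2 ^ (g :: gs).length := by
  classical
  by_cases H : ∀ x ∈ cube gs, ∀ y ∈ cube gs, ∀ a ∈ S,
      (∃ x' ∈ cube gs, ∃ y' ∈ cube gs, x⁻¹ * y * a = x'⁻¹ * y') ∧
      (∃ x' ∈ cube gs, ∃ y' ∈ cube gs, x⁻¹ * y * a⁻¹ = x'⁻¹ * y')
  · left
    intro g hgc
    induction hgc using Subgroup.closure_induction_right with
    | one => exact ⟨1, one_mem_cube _, 1, one_mem_cube _, by simp⟩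
    | mul_right x hx y hy ih =>
      obtain ⟨x1, h1, y1, h2, rfl⟩ := ih
      exact (H x1 h1 y1 h2 y hy).1
    | mul_inv_cancel x hx y hy ih =>
      obtain ⟨x1, h1, y1, h2, rfl⟩ := ih
      exact (H x1 h1 y1 h2 y hy).2
  · right
    push Not at H
    obtain ⟨x, hx, y, hy, a, ha, H⟩ := H
    have h0 : (1 : G) ∈ L := hE.subset (by simp)
    obtain ⟨L1, e1, m1⟩ := ext_cube h0 hg hx hy
    have ha1 : a ∈ L1 := e1.subset (hE.subset (by simp [ha]))
    have h01 : (1 : G) ∈ L1 := e1.subset h0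
    have fin : ∀ (g : G) (L' : List G), Ext L1 2 L' → g ∈ L' →
        (∀ x' ∈ cube gs, ∀ y' ∈ cube gs, g ≠ x'⁻¹ * y') →
        ∃ (g : G) (L' : List G), Ext (1 :: S) ((g :: gs).length * (3 * p + 2)) L' ∧
          (∀ a ∈ g :: gs, a ∈ L') ∧ (cube (g :: gs)).card = 2 ^ (g :: gs).length := by
      intro g L' hL' hgL' hne
      refine ⟨g, L', ((hE.trans e1).trans hL').mono ?_, ?_, ?_⟩
      · rw [List.length_cons]
        nlinarith
      · intro b hb
        rcases List.mem_cons.1 hb with rfl | hb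
        · exact hgL'
        · exact hL'.subset (e1.subset (hg b hb))
      · rw [card_cube_cons g gs hne, hc, List.length_cons, pow_succ]
        ring
    by_cases H1 : ∃ x' ∈ cube gs, ∃ y' ∈ cube gs, x⁻¹ * y * a = x'⁻¹ * y'
    · have H2 := H H1
      exact fin (x⁻¹ * y * a⁻¹) _ ((Ext.step m1 ha1).mono (by norm_num)) (by simp) H2
    · push Not at H1
      have s1 := Ext.step h01 ha1
      have s2 := Ext.step (L := (1 * a⁻¹) :: L1) (a := x⁻¹ * y) (b := 1 * a⁻¹)
        (List.mem_cons_of_mem _ m1) (by simp)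
      refine fin (x⁻¹ * y * a) _ (s1.trans s2) ?_ H1
      simp

/-- The reachability lemma. -/
theorem reach {p : ℕ} [Finite G] (hp : Nat.card G ≤ 2 ^ p) (S : List G) (h : G)
    (hh : h ∈ Subgroup.closure {a | a ∈ S}) :
    ∃ ps : List (ℕ × ℕ), ps.length ≤ 3 * (p + 1) ^ 2 ∧
      (∀ uv ∈ ps, uv.1 < S.length + 1 + 3 * (p + 1) ^ 2 ∧ uv.2 < S.length + 1 + 3 * (p + 1) ^ 2) ∧
      (runG (1 :: S) ps).getD 0 1 = h := by
  classical
  have hfin : Fintype G := Fintype.ofFinite G
  have bound : ∀ gs : List G, (cube gs).card = 2 ^ gs.length → gs.length ≤ p := by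
    intro gs hgs
    have h1 : (cube gs).card ≤ Nat.card G := by
      rw [Nat.card_eq_fintype_card]
      exact Finset.card_le_univ _
    rw [hgs] at h1
    exact (Nat.pow_le_pow_iff_right (by norm_num)).1 (h1.trans hp)
  have key : ∀ (n : ℕ) (gs L : List G), n + gs.length = p + 1 →
      Ext (1 :: S) (gs.length * (3 * p + 2)) L →
      (∀ g ∈ gs, g ∈ L) → (cube gs).card = 2 ^ gs.length →
      ∃ gs' L' : List G, Ext (1 :: S) (gs'.length * (3 * p + 2)) L' ∧ (∀ g ∈ gs', g ∈ L') ∧
        gs'.length ≤ p ∧ ∀ g ∈ Subgroup.closure {a | a ∈ S}, ∃ x ∈ cube gs', ∃ y ∈ cube gs',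
          g = x⁻¹ * y := by
    intro n
    induction n with
    | zero =>
      intro gs L hn hE hg hc
      have := bound gs hc
      omega
    | succ n ih =>
      intro gs L hn hE hg hc
      have hs := bound gs hc
      rcases grow S gs L hs hE hg hc with H | ⟨g, L', h1, h2, h3⟩
      · exact ⟨gs, L, hE, hg, hs, H⟩
      · exact ih (g :: gs) L' (by simp; omega) h1 h2 h3
  obtain ⟨gs, L, hE, hg, hs, H⟩ := key (p + 1) [] (1 :: S) (by simp) (Ext.refl _ _) (by simp)
    (by simp [cube])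
  obtain ⟨x, hx, y, hy, rfl⟩ := H h hh
  have h0 : (1 : G) ∈ L := hE.subset (by simp)
  obtain ⟨L1, e1, m1⟩ := ext_cube h0 hg hx hy
  have e2 := Ext.step m1 (e1.subset h0)
  have hle : gs.length * (3 * p + 2) + 3 * gs.length + 1 ≤ 3 * (p + 1) ^ 2 := by nlinarith
  obtain ⟨ps, h1, h2, h3⟩ := ((hE.trans e1).trans e2).mono hle
  refine ⟨ps, h1, fun uv huv => ?_, ?_⟩
  · have := h2 uv huv
    simpa using this
  · rw [h3]
    simp

end Pool.Agent.Helper4.LS
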