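import Pool.Agent.Helper45.LS.Defs
import Pool.Agent.H578R2.Med.NPClos
import Pool.Agent.Helper4.LS.Slp

set_option autoImplicit false

/-!
# Subgroup languages of black box groups are nondeterministically selective from lists
-/

namespace Pool.Agent.Helper4.LS

open Pool.Agent.NPC
open Pool.Agent.Helper45.LS

/-! ### Programs stay in subgroups -/

section G

variable {G : Type} [Group G]

theorem runG_mem (H : Subgroup G) : ∀ (ps : List (ℕ × ℕ)) (L : List G), (∀ a ∈ L, a ∈ H) →
    ∀ a ∈ runG L ps, a ∈ H
  | [], L, h, a, ha => h a ha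
  | p :: ps, L, h, a, ha => by
    have hD : ∀ k : ℕ, L.getD k 1 ∈ H := by
      intro k
      by_cases hk : k < L.length
      · rw [List.getD_eq_getElem _ _ hk]
        exact h _ (List.getElem_mem hk)
      · rw [List.getD_eq_default _ _ (by omega)]
        exact H.one_mem
    refine runG_mem H ps (stepG L p) ?_ a ha
    intro b hb
    rcases List.mem_cons.1 hb with rfl | hb
    · exact H.mul_mem (hD _) (H.inv_mem (hD _))
    · exact h b hb

theorem runG_getD_mem (H : Subgroup G) (ps : List (ℕ × ℕ)) (L : List G) (h : ∀ a ∈ L, a ∈ H)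
    (k : ℕ) : (runG L ps).getD k 1 ∈ H := by
  by_cases hk : k < (runG L ps).length
  · rw [List.getD_eq_getElem _ _ hk]
    exact runG_mem H ps L h _ (List.getElem_mem hk)
  · rw [List.getD_eq_default _ _ (by omega)]
    exact H.one_mem

/-- the growth of the generated subgroups -/
theorem grow_card [Finite G] (xs : List (List Bool)) (f : List Bool → G) (l : ℕ)
    (h : ∀ i < xs.length, (xs.getD i []).length = l →
      f (xs.getD i []) ∉ Subgroup.closure {g | ∃ j < i, (xs.getD j []).length = l ∧
        f (xs.getD j []) = g}) :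
    ∀ k ≤ xs.length, 2 ^ ((Finset.range k).filter (fun j => (xs.getD j []).length = l)).card ≤
      Nat.card (Subgroup.closure {g | ∃ j < k, (xs.getD j []).length = l ∧
        f (xs.getD j []) = g}) := by
  intro k
  induction k with
  | zero =>
    intro _
    simp only [Finset.range_zero, Finset.filter_empty, Finset.card_empty, pow_zero]
    exact Nat.card_pos
  | succ k ih =>
    intro hk
    have h1 := ih (by omega)
    have hle : Subgroup.closure {g | ∃ j < k, (xs.getD j []).length = l ∧ f (xs.getD j []) = g} ≤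
        Subgroup.closure {g | ∃ j < k + 1, (xs.getD j []).length = l ∧ f (xs.getD j []) = g} := by
      apply Subgroup.closure_mono
      rintro g ⟨j, hj, h2, h3⟩
      exact ⟨j, by omega, h2, h3⟩
    rw [Finset.range_add_one, Finset.filter_insert]
    split_ifs with hl
    · rw [Finset.card_insert_of_notMem (by simp), pow_succ]
      have h2 := h k (by omega) hl
      have hlt : Subgroup.closure {g | ∃ j < k, (xs.getD j []).length = l ∧
          f (xs.getD j []) = g} <
          Subgroup.closure {g | ∃ j < k + 1, (xs.getD j []).length = l ∧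
          f (xs.getD j []) = g} := by
        refine lt_of_le_of_ne hle fun he => h2 ?_
        rw [he]
        exact Subgroup.subset_closure ⟨k, by omega, hl, rfl⟩
      obtain ⟨c, hc⟩ := Subgroup.card_dvd_of_le hle
      have h3 : Nat.card (Subgroup.closure {g | ∃ j < k, (xs.getD j []).length = l ∧
          f (xs.getD j []) = g}) <
          Nat.card (Subgroup.closure {g | ∃ j < k + 1, (xs.getD j []).length = l ∧
          f (xs.getD j []) = g}) := by
        refine lt_of_le_of_ne (Subgroup.card_le_of_le hle) fun he => hlt.ne ?_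
        exact Subgroup.eq_of_le_of_card_ge hle he.ge
      have hc2 : 2 ≤ c := by
        by_contra hcc
        have : c = 0 ∨ c = 1 := by omega
        rcases this with rfl | rfl
        · rw [mul_zero] at hc
          exact Nat.card_pos.ne' hc
        · rw [hc] at h3
          simp at h3
      rw [hc]
      exact Nat.mul_le_mul h1 hc2
    · exact h1.trans (Subgroup.card_le_of_le hle)

end G

/-- Some string of a long list is generated by the previous ones. -/
theorem exists_gen (𝒢 : NamedGroups) (φ : List Bool → List Bool) (n : ℕ) (xs : List (List Bool))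
    (hn : ∀ x ∈ xs, x.length ≤ n) (hlen : (n + 1) * 𝒢.p.eval n + 1 ≤ xs.length) :
    ∃ i < xs.length, 𝒢.el (xs.getD i []).length (φ (xs.getD i [])) ∈
      Subgroup.closure {g | ∃ j < i, (xs.getD j []).length = (xs.getD i []).length ∧
        𝒢.el (xs.getD i []).length (φ (xs.getD j [])) = g} := by
  by_contra hcon
  push Not at hcon
  have h1 : ∀ l ≤ n, ((Finset.range xs.length).filter
      (fun j => (xs.getD j []).length = l)).card ≤ 𝒢.p.eval n := by
    intro l hl
    have h2 := grow_card xs (fun x => 𝒢.el l (φ x)) l (by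
      intro i hi hil
      have := hcon i hi
      rw [hil] at this
      exact this) xs.length le_rfl
    have h3 : Nat.card (Subgroup.closure {g | ∃ j < xs.length, (xs.getD j []).length = l ∧
        (fun x => 𝒢.el l (φ x)) (xs.getD j []) = g}) ≤ 2 ^ 𝒢.p.eval l :=
      (Subgroup.card_le_card_group _).trans (𝒢.card_le l)
    exact ((Nat.pow_le_pow_iff_right (by norm_num)).1 (h2.trans h3)).trans (eval_mono 𝒢.p hl)
  have h2 : (Finset.range xs.length).card = ∑ l ∈ Finset.range (n + 1),
      ((Finset.range xs.length).filter (fun j => (xs.getD j []).length = l)).card := by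
    apply Finset.card_eq_sum_card_fiberwise
    intro j hj
    have hj' : j < xs.length := by simpa using hj
    have := hn (xs.getD j []) (by
      rw [List.getD_eq_getElem _ _ hj']
      exact List.getElem_mem hj')
    simp only [Finset.coe_range, Set.mem_Iio]
    omega
  have h3 : ∑ l ∈ Finset.range (n + 1),
      ((Finset.range xs.length).filter (fun j => (xs.getD j []).length = l)).card ≤
      ∑ l ∈ Finset.range (n + 1), 𝒢.p.eval n :=
    Finset.sum_le_sum fun l hl => h1 l (by
      have := Finset.mem_range.1 hl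
      omega)
  rw [Finset.card_range] at h2
  rw [Finset.sum_const, Finset.card_range, smul_eq_mul] at h3
  omega

/-! ### Programs on names -/

section N

variable (mul inv eq φ : List Bool → List Bool)

/-- the unary code of the length -/
def un (x : List Bool) : List Bool := x.map fun _ => true

theorem un_eq (x : List Bool) : un x = List.replicate x.length true := List.map_const' ..

/-- a name of `a b⁻¹` -/
def nmDiv (u a b : List Bool) : List Bool :=
  mul (bits ((u, a, inv (bits ((u, b) : List Bool × List Bool))) :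
    List Bool × List Bool × List Bool))

/-- a name of the unit -/
def nmOne (u : List Bool) : List Bool := nmDiv mul inv u [] []

/-- one instruction -/
def stepN (u : List Bool) (L : List (List Bool)) (uv : ℕ × ℕ) : List (List Bool) :=
  nmDiv mul inv u (L.getD uv.1 (nmOne mul inv u)) (L.getD uv.2 (nmOne mul inv u)) :: L

/-- the program -/
def runN (u : List Bool) (L : List (List Bool)) (ps : List (ℕ × ℕ)) : List (List Bool) :=
  ps.foldl (stepN mul inv u) L

/-- the generators: the names of the previous strings of the same length -/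
def gens (xs : List (List Bool)) (i : ℕ) : List (List Bool) :=
  (xs.zipIdx.filter fun p => decide (p.2 < i) && decide (p.1.length = (xs.getD i []).length)).map
    fun p => φ p.1

/-- the test -/
def test (xs : List (List Bool)) (i : ℕ) (ps : List (ℕ × ℕ)) : Bool :=
  decide (eq (bits ((un (xs.getD i []),
    (runN mul inv (un (xs.getD i [])) (nmOne mul inv (un (xs.getD i [])) :: gens φ xs i) ps).getD 0
      (nmOne mul inv (un (xs.getD i []))), φ (xs.getD i [])) :
      List Bool × List Bool × List Bool)) = [true])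

/-- the value for a list and a decoded guess -/
def cand (c : List (List Bool) × ℕ × List (ℕ × ℕ)) : Option ℕ :=
  bif decide (c.2.1 < c.1.length) && test mul inv eq φ c.1 c.2.1 c.2.2 then some c.2.1 else none

/-- the function -/
def gfun (y : List Bool) : Option ℕ :=
  (unbits (List (List Bool)) (unpair y).1).elim none fun xs =>
    (unbits (ℕ × List (ℕ × ℕ)) (unpair y).2).elim none fun c => cand mul inv eq φ (xs, c)

variable {mul inv eq φ}

theorem mem_gens {xs : List (List Bool)} {i : ℕ} {v : List Bool} (hi : i < xs.length) :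
    v ∈ gens φ xs i ↔ ∃ j < i, (xs.getD j []).length = (xs.getD i []).length ∧
      φ (xs.getD j []) = v := by
  unfold gens
  simp only [List.mem_map, List.mem_filter, Bool.and_eq_true, decide_eq_true_eq]
  constructor
  · rintro ⟨⟨x, j⟩, ⟨h1, h2, h3⟩, h4⟩
    rw [List.mk_mem_zipIdx_iff_getElem?] at h1
    refine ⟨j, h2, ?_, ?_⟩
    · rw [List.getD_eq_getElem?_getD, h1]
      exact h3
    · rw [List.getD_eq_getElem?_getD, h1]
      exact h4
  · rintro ⟨j, hj, h1, h2⟩
    have hj' : j < xs.length := by omega
    refine ⟨(xs.getD j [], j), ⟨?_, hj, h1⟩, h2⟩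
    rw [List.mk_mem_zipIdx_iff_getElem?, List.getD_eq_getElem _ _ hj']
    exact List.getElem?_eq_getElem hj'

theorem length_gens (xs : List (List Bool)) (i : ℕ) : (gens φ xs i).length ≤ xs.length := by
  unfold gens
  rw [List.length_map]
  exact (List.length_filter_le _ _).trans (by simp)

/-- the conditions on the operations -/
def Ops (𝒢 : NamedGroups) (mul inv eq : List Bool → List Bool) : Prop :=
    ∀ (n : ℕ) (a b : List Bool),
      𝒢.el n (mul (bits ((List.replicate n true, a, b) : List Bool × List Bool × List Bool))) =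
        𝒢.el n a * 𝒢.el n b ∧
      (mul (bits ((List.replicate n true, a, b) : List Bool × List Bool × List Bool))).length ≤
        𝒢.p.eval n ∧
      𝒢.el n (inv (bits ((List.replicate n true, a) : List Bool × List Bool))) = (𝒢.el n a)⁻¹ ∧
      (inv (bits ((List.replicate n true, a) : List Bool × List Bool))).length ≤ 𝒢.p.eval n ∧
      (eq (bits ((List.replicate n true, a, b) : List Bool × List Bool × List Bool)) = [true] ↔
        𝒢.el n a = 𝒢.el n b)

variable {𝒢 : NamedGroups}

theorem el_nmDiv (H : Ops 𝒢 mul inv eq) (x a b : List Bool) :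
    𝒢.el x.length (nmDiv mul inv (un x) a b) = 𝒢.el x.length a * (𝒢.el x.length b)⁻¹ := by
  unfold nmDiv
  rw [un_eq, (H x.length a _).1, (H x.length b []).2.2.1]

theorem length_nmDiv (H : Ops 𝒢 mul inv eq) (x a b : List Bool) :
    (nmDiv mul inv (un x) a b).length ≤ 𝒢.p.eval x.length := by
  unfold nmDiv
  rw [un_eq]
  exact (H x.length a _).2.1

theorem el_nmOne (H : Ops 𝒢 mul inv eq) (x : List Bool) :
    𝒢.el x.length (nmOne mul inv (un x)) = 1 := by
  unfold nmOne
  rw [el_nmDiv H]
  simp

theorem el_getD (H : Ops 𝒢 mul inv eq) (x : List Bool) (L : List (List Bool)) (k : ℕ) :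
    𝒢.el x.length (L.getD k (nmOne mul inv (un x))) = (L.map (𝒢.el x.length)).getD k 1 := by
  by_cases hk : k < L.length
  · rw [List.getD_eq_getElem _ _ hk, List.getD_eq_getElem _ _ (by simpa using hk)]
    simp
  · rw [List.getD_eq_default _ _ (by omega), List.getD_eq_default _ _ (by simpa using hk),
      el_nmOne H]

theorem map_runN (H : Ops 𝒢 mul inv eq) (x : List Bool) : ∀ (ps : List (ℕ × ℕ))
    (L : List (List Bool)), (runN mul inv (un x) L ps).map (𝒢.el x.length) =
      runG (L.map (𝒢.el x.length)) ps
  | [], L => rfl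
  | p :: ps, L => by
    have h1 : runN mul inv (un x) L (p :: ps) = runN mul inv (un x) (stepN mul inv (un x) L p) ps :=
      rfl
    have h2 : runG (L.map (𝒢.el x.length)) (p :: ps) =
      runG (stepG (L.map (𝒢.el x.length)) p) ps := rfl
    rw [h1, h2, map_runN H x ps]
    congr 1
    unfold stepN stepG
    rw [List.map_cons, el_nmDiv H, el_getD H, el_getD H]

theorem test_iff (H : Ops 𝒢 mul inv eq) (xs : List (List Bool)) (i : ℕ) (ps : List (ℕ × ℕ)) :
    test mul inv eq φ xs i ps = true ↔
      (runG (1 :: (gens φ xs i).map (𝒢.el (xs.getD i []).length)) ps).getD 0 1 =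
        𝒢.el (xs.getD i []).length (φ (xs.getD i [])) := by
  unfold test
  rw [decide_eq_true_eq]
  have h1 := (H (xs.getD i []).length ((runN mul inv (un (xs.getD i []))
    (nmOne mul inv (un (xs.getD i [])) :: gens φ xs i) ps).getD 0
      (nmOne mul inv (un (xs.getD i [])))) (φ (xs.getD i []))).2.2.2.2
  rw [← un_eq] at h1
  rw [h1, el_getD H, map_runN H, List.map_cons, el_nmOne H]

/-! ### The function is computed in polynomial time -/

theorem sz_runN (H : Ops 𝒢 mul inv eq) (x : List Bool) : ∀ (ps : List (ℕ × ℕ))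
    (L : List (List Bool)), sz (runN mul inv (un x) L ps) ≤
      sz L + ps.length * (4 * 𝒢.p.eval x.length + 2)
  | [], L => by simp [runN]
  | p :: ps, L => by
    have h1 : runN mul inv (un x) L (p :: ps) = runN mul inv (un x) (stepN mul inv (un x) L p) ps :=
      rfl
    rw [h1]
    refine (sz_runN H x ps _).trans ?_
    have h2 : sz (stepN mul inv (un x) L p) ≤ sz L + (4 * 𝒢.p.eval x.length + 2) := by
      unfold stepN
      rw [sz_list_cons]
      have h3 := sz_listBool_le (nmDiv mul inv (un x) (L.getD p.1 (nmOne mul inv (un x)))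
        (L.getD p.2 (nmOne mul inv (un x))))
      have h4 := length_nmDiv H x (L.getD p.1 (nmOne mul inv (un x)))
        (L.getD p.2 (nmOne mul inv (un x)))
      omega
    rw [List.length_cons, add_mul, one_mul]
    omega

theorem poly_nmDiv {α : Type} [TEnc α] (hm : PolyTime mul) (hi : PolyTime inv)
    {u a b : α → List Bool} (hu : NPC.Poly u) (ha : NPC.Poly a) (hb : NPC.Poly b) :
    NPC.Poly (fun x => nmDiv mul inv (u x) (a x) (b x)) := by
  unfold nmDiv
  have h1 : NPC.Poly (fun x => inv (bits ((u x, b x) : List Bool × List Bool))) :=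
    (Med.poly_of_polyTime hi).comp (Med.poly_bits.comp (NPC.Poly.pair hu hb))
  exact (Med.poly_of_polyTime hm).comp (Med.poly_bits.comp
    (NPC.Poly.pair hu (NPC.Poly.pair ha h1)))

theorem poly_test (H : Ops 𝒢 mul inv eq) (hm : PolyTime mul) (hi : PolyTime inv)
    (he : PolyTime eq) (hφ : PolyTime φ) :
    NPC.Poly (fun c : List (List Bool) × ℕ × List (ℕ × ℕ) =>
      test mul inv eq φ c.1 c.2.1 c.2.2) := by
  have hφ' := Med.poly_of_polyTime hφ
  have hx : NPC.Poly (fun c : List (List Bool) × ℕ × List (ℕ × ℕ) => c.1.getD c.2.1 []) := by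
    fun_prop
  have hu : NPC.Poly (fun c : List (List Bool) × ℕ × List (ℕ × ℕ) => un (c.1.getD c.2.1 [])) := by
    unfold un
    fun_prop
  have h1 : NPC.Poly (fun c : List (List Bool) × ℕ × List (ℕ × ℕ) =>
      nmOne mul inv (un (c.1.getD c.2.1 []))) :=
    poly_nmDiv hm hi hu (NPC.Poly.const _) (NPC.Poly.const _)
  have hg : NPC.Poly (fun c : List (List Bool) × ℕ × List (ℕ × ℕ) => gens φ c.1 c.2.1) := by
    unfold gens
    fun_prop
  have hL := NPC.Poly.cons h1 hg
  obtain ⟨r, hr⟩ := hL.sz_le
  have hrun : NPC.Poly (fun c : List (List Bool) × ℕ × List (ℕ × ℕ) =>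
      runN mul inv (un (c.1.getD c.2.1 [])) (nmOne mul inv (un (c.1.getD c.2.1 [])) ::
        gens φ c.1 c.2.1) c.2.2) := by
    unfold runN
    refine NPC.Poly.foldl (l := fun c : List (List Bool) × ℕ × List (ℕ × ℕ) => c.2.2)
      (F := fun c L uv => stepN mul inv (un (c.1.getD c.2.1 [])) L uv) (by fun_prop) hL ?_
      (r + Polynomial.X * (Polynomial.C 4 * 𝒢.p + Polynomial.C 2)) ?_
    · unfold stepN
      refine NPC.Poly.cons ?_ (by fun_prop)
      have hu' := hu.comp (f := fun p : (List (List Bool) × ℕ × List (ℕ × ℕ)) ×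
        List (List Bool) × (ℕ × ℕ) => p.1) (NPC.Poly.fst NPC.Poly.id)
      have h1' := h1.comp (f := fun p : (List (List Bool) × ℕ × List (ℕ × ℕ)) ×
        List (List Bool) × (ℕ × ℕ) => p.1) (NPC.Poly.fst NPC.Poly.id)
      refine poly_nmDiv hm hi hu' ?_ ?_
      · exact NPC.Poly.getD (by fun_prop) (by fun_prop) h1'
      · exact NPC.Poly.getD (by fun_prop) (by fun_prop) h1'
    · rintro ⟨xs, i, ps⟩ k hk
      have h2 := sz_runN H (xs.getD i []) (ps.take k)
        (nmOne mul inv (un (xs.getD i [])) :: gens φ xs i)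
      refine h2.trans ?_
      have h3 := hr (xs, i, ps)
      have h4 : (ps.take k).length ≤ sz (xs, i, ps) := by
        have := length_lt_sz ps
        simp only [sz_pair, List.length_take]
        omega
      have h5 : (xs.getD i []).length ≤ sz (xs, i, ps) := by
        by_cases hi : i < xs.length
        · rw [List.getD_eq_getElem _ _ hi]
          have h6 := length_lt_sz (xs[i])
          have h7 := sz_le_of_mem (List.getElem_mem hi)
          simp only [sz_pair]
          omega
        · rw [List.getD_eq_default _ _ (by omega)]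
          simp
      have h6 := eval_mono 𝒢.p h5
      simp only [Polynomial.eval_add, Polynomial.eval_mul, Polynomial.eval_X, Polynomial.eval_C]
      refine Nat.add_le_add h3 (Nat.mul_le_mul h4 ?_)
      omega
  unfold test
  have h2 : NPC.Poly (fun c : List (List Bool) × ℕ × List (ℕ × ℕ) =>
      eq (bits ((un (c.1.getD c.2.1 []),
    (runN mul inv (un (c.1.getD c.2.1 [])) (nmOne mul inv (un (c.1.getD c.2.1 [])) ::
      gens φ c.1 c.2.1) c.2.2).getD 0
      (nmOne mul inv (un (c.1.getD c.2.1 []))), φ (c.1.getD c.2.1 [])) :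
      List Bool × List Bool × List Bool))) :=
    (Med.poly_of_polyTime he).comp (Med.poly_bits.comp (NPC.Poly.pair hu (NPC.Poly.pair
      (NPC.Poly.getD hrun (NPC.Poly.const _) h1) (hφ'.comp hx))))
  exact NPC.Poly.decide_eq h2 (NPC.Poly.const _)

theorem poly_cand (H : Ops 𝒢 mul inv eq) (hm : PolyTime mul) (hi : PolyTime inv)
    (he : PolyTime eq) (hφ : PolyTime φ) : NPC.Poly (cand mul inv eq φ) := by
  unfold cand
  exact NPC.Poly.cond (NPC.Poly.and (by fun_prop) (poly_test H hm hi he hφ))
    (NPC.Poly.some (by fun_prop)) (NPC.Poly.const _)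

theorem poly_gfun (H : Ops 𝒢 mul inv eq) (hm : PolyTime mul) (hi : PolyTime inv)
    (he : PolyTime eq) (hφ : PolyTime φ) : NPC.Poly (gfun mul inv eq φ) := by
  have ht := poly_cand H hm hi he hφ
  unfold gfun
  refine NPC.Poly.optElim (poly_unbits.comp (NPC.Poly.fst poly_unpair)) (NPC.Poly.const _) ?_
  refine NPC.Poly.optElim
    (poly_unbits.comp (NPC.Poly.snd (poly_unpair.comp (NPC.Poly.fst NPC.Poly.id))))
    (NPC.Poly.const _) ?_
  exact ht.comp (NPC.Poly.pair (NPC.Poly.snd (NPC.Poly.fst NPC.Poly.id)) (NPC.Poly.snd NPC.Poly.id))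

theorem gfun_pair (xs : List (List Bool)) (w : List Bool) :
    gfun mul inv eq φ (pairBits (bits xs) w) =
      (unbits (ℕ × List (ℕ × ℕ)) w).elim none fun c => cand mul inv eq φ (xs, c) := by
  unfold gfun
  rw [unpair_pairBits]
  simp only [unbits_bits, Option.elim_some]

theorem gfun_some {xs : List (List Bool)} {w : List Bool} {i : ℕ}
    (h : gfun mul inv eq φ (pairBits (bits xs) w) = some i) :
    i < xs.length ∧ ∃ ps, test mul inv eq φ xs i ps = true := by
  rw [gfun_pair] at h
  cases hc : unbits (ℕ × List (ℕ × ℕ)) w with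
  | none =>
    rw [hc] at h
    simp at h
  | some c =>
    rw [hc, Option.elim_some] at h
    unfold cand at h
    cases hb : (decide (c.1 < xs.length) && test mul inv eq φ xs c.1 c.2) with
    | false =>
      simp only [hb, cond_false, reduceCtorEq] at h
    | true =>
      simp only [hb, cond_true, Option.some.injEq] at h
      subst h
      rw [Bool.and_eq_true, decide_eq_true_eq] at hb
      exact ⟨hb.1, c.2, hb.2⟩

end N

theorem t_g2 {𝒢 : NamedGroups} {K : Set (List Bool)} (h1 : BlackBox 𝒢)
    (h2 : SubgroupLanguage 𝒢 K) : NListSelective K := by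
  obtain ⟨mul, inv, eq, hm, hi, he, H⟩ := h1
  have H' : Ops 𝒢 mul inv eq := H
  obtain ⟨φ, hφ, Hs, hK⟩ := h2
  refine ⟨(Polynomial.X + Polynomial.C 1) * 𝒢.p + Polynomial.C 1,
    Polynomial.C 4 * Polynomial.X + Polynomial.C 3 + Polynomial.C 3 * (𝒢.p + Polynomial.C 1) ^ 2 *
      (Polynomial.C 8 * (Polynomial.X + Polynomial.C 1 +
        Polynomial.C 3 * (𝒢.p + Polynomial.C 1) ^ 2) + Polynomial.C 4),
    gfun mul inv eq φ, polyTime_bits (poly_gfun H' hm hi he hφ), fun n xs hn hlen => ?_⟩
  have hlen' : (n + 1) * 𝒢.p.eval n + 1 ≤ xs.length := by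
    simpa using hlen
  constructor
  · obtain ⟨i, hi', hgen⟩ := exists_gen 𝒢 φ n xs hn hlen'
    set l := (xs.getD i []).length with hl
    have hcl : 𝒢.el l (φ (xs.getD i [])) ∈
        Subgroup.closure {a | a ∈ (gens φ xs i).map (𝒢.el l)} := by
      refine Subgroup.closure_mono ?_ hgen
      rintro g ⟨j, hj, h3, h4⟩
      refine List.mem_map.2 ?_
      exact ⟨φ (xs.getD j []), (mem_gens hi').2 ⟨j, hj, h3, rfl⟩, h4⟩
    obtain ⟨ps, p1, p2, p3⟩ := reach (𝒢.card_le l) _ _ hcl
    refine ⟨bits ((i, ps) : ℕ × List (ℕ × ℕ)), ?_, ?_⟩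
    · set m := (bits xs).length with hmm
      have hm1 : sz xs = m := rfl
      have hxm : xs.length < m := length_lt_sz xs
      have hlm : l ≤ m := by
        rw [hl, List.getD_eq_getElem _ _ hi']
        have h6 := length_lt_sz (xs[i])
        have h7 := sz_le_of_mem (List.getElem_mem hi')
        omega
      have hpl := eval_mono 𝒢.p hlm
      set P := 𝒢.p.eval m with hP
      have hsq : 3 * (𝒢.p.eval l + 1) ^ 2 ≤ 3 * (P + 1) ^ 2 :=
        Nat.mul_le_mul_left _ (Nat.pow_le_pow_left (by omega) 2)
      have hgl : ((gens φ xs i).map (𝒢.el l)).length ≤ xs.length := by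
        rw [List.length_map]
        exact length_gens xs i
      have hszn : ∀ u B : ℕ, u ≤ B → sz u ≤ 4 * B + 1 := by
        intro u B hu
        have h3 := sz_nat_le u
        have h4 : u.size ≤ u := Nat.size_le.2 Nat.lt_two_pow_self
        omega
      have hps : sz ps ≤ ps.length * (8 * (m + 1 + 3 * (P + 1) ^ 2) + 4) + 1 := by
        refine sz_le_length_mul ps (8 * (m + 1 + 3 * (P + 1) ^ 2) + 3) ?_
        rintro ⟨u, v⟩ huv
        have h3 := p2 _ huv
        simp only at h3
        have h4 := hszn u (m + 1 + 3 * (P + 1) ^ 2) (by omega)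
        have h5 := hszn v (m + 1 + 3 * (P + 1) ^ 2) (by omega)
        rw [sz_pair]
        omega
      have hii := hszn i m (by omega)
      have hps2 : ps.length * (8 * (m + 1 + 3 * (P + 1) ^ 2) + 4) ≤
          3 * (P + 1) ^ 2 * (8 * (m + 1 + 3 * (P + 1) ^ 2) + 4) :=
        Nat.mul_le_mul_right _ (p1.trans hsq)
      have hbl : (bits ((i, ps) : ℕ × List (ℕ × ℕ))).length = sz i + sz ps + 1 := by
        rw [bits_length, sz_pair]
      rw [hbl]
      simp only [Polynomial.eval_add, Polynomial.eval_mul, Polynomial.eval_X, Polynomial.eval_C,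
        Polynomial.eval_pow]
      rw [← hP]
      omega
    · rw [gfun_pair, unbits_bits, Option.elim_some]
      unfold cand
      have ht : test mul inv eq φ xs i ps = true := by
        rw [test_iff H']
        exact p3
      simp [hi', ht]
  · intro w i _ hw
    obtain ⟨hi', ps, ht⟩ := gfun_some hw
    refine ⟨hi', ?_⟩
    rintro ⟨hL1, hL2⟩
    apply hL1
    rw [hK]
    rw [test_iff H'] at ht
    rw [← ht]
    have hall : ∀ a ∈ (1 :: (gens φ xs i).map (𝒢.el (xs.getD i []).length)),
        a ∈ Hs (xs.getD i []).length := by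
      intro a ha
      rcases List.mem_cons.1 ha with rfl | ha
      · exact Subgroup.one_mem _
      · obtain ⟨v, hv, rfl⟩ := List.mem_map.1 ha
        obtain ⟨j, hj, h3, rfl⟩ := (mem_gens hi').1 hv
        have h4 := (hK _).1 (hL2 j (by omega) (by omega))
        rw [h3] at h4
        exact h4
    exact runG_getD_mem (Hs (xs.getD i []).length) ps _ hall 0

end Pool.Agent.Helper4.LS
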